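import Pool.Agent.Lib_MP_20c673_nt.Proof

set_option autoImplicit false

namespace Pool.Agent.Results.MP_20c673_nt.QOne

open Pool.Agent.QCong

/-- Q1: for every admissible triple there is exactly one integer exponent `f` that makes the
congruence hold, and it is given by the explicit formula `expo`. -/
theorem result : ∀ p m r : ℕ, Admissible p m r →
    (∃! f : ℤ, Works p m r f) ∧ Works p m r (expo p m r) := by
  intro p m r hA
  refine ⟨⟨expo p m r, works_expo p m r hA, ?_⟩, works_expo p m r hA⟩
  intro f hf
  exact (works_iff p m r hA f).mp hf

end Pool.Agent.Results.MP_20c673_nt.QOne
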