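import Pool.Agent.Lib_MP_20c673_nt.Proof

set_option autoImplicit false

namespace Pool.Agent.Results.MP_20c673_nt.QTwo

open Pool.Agent.QCong

/-- Q2: for every admissible triple `(p, m, r)` the unique exponents `f = f_{p,m,r}` and
`f' = f_{p,m,r+m}` satisfy `f' = -f` if `p ∣ r` and `f' = f - r` if `p ∤ r`. -/
theorem result : ∀ p m r : ℕ, Admissible p m r →
    ∃ f f' : ℤ, (∀ g : ℤ, Works p m r g ↔ g = f) ∧ (∀ g : ℤ, Works p m (r + m) g ↔ g = f') ∧
      (p ∣ r → f' = -f) ∧ (¬ p ∣ r → f' = f - r) := by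
  intro p m r hA
  exact ⟨expo p m r, expo p m (r + m), works_iff p m r hA, works_iff p m (r + m) hA.add,
    (expo_add p m r hA).1, (expo_add p m r hA).2⟩

end Pool.Agent.Results.MP_20c673_nt.QTwo
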